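import Pool.Agent.Run7.h220.ZCSym

/-!
# Voisin's conjecture for symmetric squares of curves

Let `C` be a smooth projective connected curve of genus `g` over an algebraically closed field `k`
(for the problem: `k = ℂ`), and `q : C × C → S` a morphism which is invariant under the exchange of
the factors, for example the quotient morphism onto the symmetric square `S = C^(2)`, a surface of
geometric genus `g (g - 1) / 2`. Then for `n > g (g - 1) / 2` the alternating sum
`∑ sgn(σ) b_σ(1) × ⋯ × b_σ(n)` is rationally equivalent to zero on `S^n` for all zero-cycles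
`b_1, ..., b_n` on `S` of the form `b = q_* a`, where `a = ∑ n_i (x_i, y_i)` is a zero-cycle on
`C × C` such that the divisor `∑ n_i (x_i + y_i)` on `C` is equivalent to zero. For `S = C^(2)`
these are all the Albanese-trivial zero-cycles on `S`, because `(x, y) ↦ x + y` induces an
isomorphism of the Albanese variety of `C^(2)` with the Jacobian variety of `C`.

The proof is that of `ProductsOfCurves`, with the symmetrizations over `g + 1` of the `2 n` points
of `C` and the decomposition of `Λ^n (Λ^2 W)`, where `W` has dimension `g`.
-/

set_option autoImplicit false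

open CategoryTheory CategoryTheory.Limits AlgebraicGeometry

universe u

namespace Pool.Agent.Results.MP_83b46e_ag.SymmetricSquares

open Run7.h220.ZC

/-- **Voisin's conjecture for the symmetric square** of a curve `C` of genus `g`, for
`n > g (g - 1) / 2 = p_g(C^(2))`; here `q : C × C → S` is a morphism with `q(x, y) = q(y, x)`, and the
zero-cycles on `S` are the images of zero-cycles `∑ n_i (x_i, y_i)` with `∑ n_i (x_i + y_i) ~ 0`. -/
theorem result {k : Type u} [Field k] [IsAlgClosed k] (C S : Over (Spec (.of k)))
    [Curve C] (g : ℕ) (h : HasGenus C g) (q : C ⨯ C ⟶ S)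
    (hq : prod.lift prod.snd prod.fst ≫ q = q) (n : ℕ) (hn : g.choose 2 < n)
    (a : Fin n → ZeroCycle (C ⨯ C))
    (ha : ∀ i, push prod.fst (a i) + push prod.snd (a i) ∈ ratZero C) :
    ∑ σ : Equiv.Perm (Fin n), ((Equiv.Perm.sign σ : ℤ) : ℚ) • ext (fun i => push q (a (σ i))) ∈
      ratZero (∏ᶜ fun _ : Fin n => S) :=
  voisin_sym h.1 hq hn a ha

end Pool.Agent.Results.MP_83b46e_ag.SymmetricSquares
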